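import Pool.Agent.helper67.GV.Spec

/-!
# Row `gv:LOW` (MP_89787e_co)

The lower bound from products.
-/

set_option autoImplicit false

open Finset Filter Topology

namespace Pool.Agent.helper67.GV

open Pool.Agent.helper21.GR

theorem LOW (hRAM : RAM_stmt) (hFMI : FMI_stmt) (hFMH : FMH_stmt) (hFM0 : FM0_stmt) :
    LOW_stmt := by
  intro T m hT
  obtain ⟨_, _, r, hr, h1, h2⟩ := hRAM T hT
  induction m with
  | zero =>
    have h0 := hFM0.1
    simp only [Nat.mul_zero, Multiset.replicate_zero, pow_zero]
    exact h0.ge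
  | succ m ih =>
    have hs : ∀ c ∈ Multiset.replicate (2 * m) T, 1 ≤ c ∧ c ≤ T := by
      intro c hc
      have := Multiset.eq_of_mem_replicate hc
      omega
    have hs1 : ∀ c ∈ (1 ::ₘ Multiset.replicate (2 * m) T), 1 ≤ c ∧ c ≤ T := by
      intro c hc
      rcases Multiset.mem_cons.1 hc with h | h
      · omega
      · exact hs c h
    have e1 := (hFMH T (Multiset.replicate (2 * m) T) 1 hT hs le_rfl (by omega)).1
    have e2 := (hFMH T (1 ::ₘ Multiset.replicate (2 * m) T) 1 hT hs1 le_rfl (by omega)).1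
    have e3 := hFMI (K0 T) r (fun _ => 1) (fun _ => 1) T T (Multiset.replicate (2 * m) T) hr h1 h2
    have e4 : Multiset.replicate (2 * (m + 1)) T = T ::ₘ T ::ₘ Multiset.replicate (2 * m) T := by
      have : 2 * (m + 1) = (2 * m + 1) + 1 := by ring
      rw [this, Multiset.replicate_succ, Multiset.replicate_succ]
    rw [e4]
    refine le_trans ?_ e3
    rw [Finset.sum_const, Finset.card_univ, Fintype.card_fin, smul_eq_mul, pow_succ, mul_comm]
    exact Nat.mul_le_mul_left _ (ih.trans (e1.trans e2))

end Pool.Agent.helper67.GV
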